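import Pool.Agent.L0h58.SP.Meas
import Pool.Agent.L0h58.SP.Search

/-!
# Exponential time and exponential space can differ by any prescribed amount relative to an oracle

Let `h` be a strictly increasing function (computable or not) with `h n / n → ∞` and
`h n ≤ 2 ^ (k * (n + 1))`. There are an oracle `A` and a set `L` in `EXPSPACE` but not in `EXPTIME`
relative to `A`, such that space `2 ^ (c * (n + 1))` can be simulated in time
`O(2 ^ h (c * (n + 1) + O(1)))`. Moreover `L` and its complement are accepted unambiguously in time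
polynomial in `h n`, and with `2 ^ h m` steps and an advice of length `2 ^ m` no program decides `L`
correctly on more than `2 ^ n / 2 + 2 √(n 2 ^ m 2 ^ n)` of the `2 ^ n` inputs of length `n`, for all
`m ≤ n`.
-/

set_option autoImplicit false

namespace Pool.Agent.Results.MP_d67941_lc.AnyGap

open Pool.Agent.L0h34.OM Pool.Agent.L0h34.RO Pool.Agent.L0h58.EE Pool.Agent.L0h58.SP

/-- Relative to `A` the set `B` is decidable in space `f n`: on the inputs of length `n` the program
writes or asks only strings of length at most `f n`; it accepts if register `0` is not empty at the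
end. -/
def SpaceIn (A : Oracle) (f : ℕ → ℕ) (B : Set (List Bool)) : Prop :=
  ∃ u : Prog, ∀ x : List Bool, ∃ (t : ℕ) (τ : Store),
    Run A (f x.length) u (init x) t τ ∧ (x ∈ B ↔ τ 0 ≠ [])

/-- Relative to `A` the set `B` is decidable in time `f n`. -/
def TimeIn (A : Oracle) (f : ℕ → ℕ) (B : Set (List Bool)) : Prop :=
  ∃ u : Prog, ∀ x : List Bool, ∃ (s t : ℕ) (τ : Store),
    Run A s u (init x) t τ ∧ t ≤ f x.length ∧ (x ∈ B ↔ τ 0 ≠ [])

/-- Linear exponential space relative to `A`. -/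
def EXPSPACE (A : Oracle) (B : Set (List Bool)) : Prop :=
  ∃ c : ℕ, SpaceIn A (fun n => 2 ^ (c * (n + 1))) B

/-- Linear exponential time relative to `A`. -/
def EXPTIME (A : Oracle) (B : Set (List Bool)) : Prop :=
  ∃ c : ℕ, TimeIn A (fun n => 2 ^ (c * (n + 1))) B

/-- The verifier `u` accepts the input `x` with the witness `w`. -/
def AcceptsWith (A : Oracle) (u : Prog) (x w : List Bool) : Prop :=
  ∃ (s t : ℕ) (τ : Store), Run A s u (init2 x w) t τ ∧ τ 0 ≠ []

/-- Unambiguous time polynomial in `h n`, relative to `A`: a verifier that makes at most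
`(h n) ^ c + c` steps on the inputs of length `n`, for all witnesses, accepts the inputs in `B` with
exactly one witness, and the other inputs with no witness. -/
def UTime (A : Oracle) (h : ℕ → ℕ) (B : Set (List Bool)) : Prop :=
  ∃ (u : Prog) (c : ℕ),
    (∀ x w : List Bool, ∃ (s t : ℕ) (τ : Store), Run A s u (init2 x w) t τ ∧
      t ≤ (h x.length) ^ c + c) ∧
    ∀ x, (x ∈ B → ∃! w, AcceptsWith A u x w) ∧ (x ∉ B → ∀ w, ¬ AcceptsWith A u x w)

/-- The program `u`, started with the input `x` in register `0` and the advice `a` in register `1`,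
stops after at most `T` steps and decides correctly whether `x` is in `B`. -/
def Correct (A : Oracle) (B : Set (List Bool)) (u : Prog) (T : ℕ) (a x : List Bool) : Prop :=
  ∃ (s t : ℕ) (τ : Store), Run A s u (init2 x a) t τ ∧ t ≤ T ∧ (x ∈ B ↔ τ 0 ≠ [])

variable {h : ℕ → ℕ}

theorem markOK_orcH (hh : StrictMono h) (R : Oracle) : MarkOK h (orcH h R) := by
  intro n m
  rw [Bool.eq_iff_iff, orcH_mark hh, decide_eq_true_eq]

theorem space_time (hh : StrictMono h) {R : Oracle} {B : Set (List Bool)} {c : ℕ} (hc : 1 ≤ c)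
    (hB : SpaceIn (orcH h R) (fun n => 2 ^ (c * (n + 1))) B) :
    ∃ k, TimeIn (orcH h R) (fun n => 200 * 2 ^ h (c * (n + 1) + k)) B := by
  obtain ⟨u, h1⟩ := hB
  obtain ⟨j, rfl⟩ := en_surjective u
  refine ⟨j, espH j c, fun x => ?_⟩
  obtain ⟨τ, ⟨s, t, ht, h2⟩, h3⟩ := go_espH (G := orcH h R) hh (markOK_orcH hh R) j hc x
  refine ⟨s, t, τ, h2, ht, ?_⟩
  have h4 : x.length + 1 ≤ c * (x.length + 1) := Nat.le_mul_of_pos_left _ hc
  rw [h3, orcH_code hh R (by omega) (by omega)]
  obtain ⟨t', τ', h5, h6⟩ := h1 x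
  rw [h6]
  constructor
  · intro h7
    exact ⟨t', τ', h5.mono (Nat.pow_le_pow_right (by norm_num) (by omega)), h7⟩
  · rintro ⟨t'', τ'', h8, h9⟩
    rwa [(h5.det h8).2]

theorem utime_aux (hh : StrictMono h) (R : Oracle) (b : Bool) :
    UTime (orcH h R) h {x | hbH h R x = b} := by
  refine ⟨verH b, 200, fun x w => ?_, fun x => ?_⟩
  · obtain ⟨τ, ⟨s, t, ht, h2⟩, _⟩ := go_verH (G := orcH h R) (markOK_orcH hh R) b x w
    refine ⟨s, t, τ, h2, ht.trans ?_⟩
    have hn : x.length ≤ h x.length := hh.le_apply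
    obtain ⟨n, hn'⟩ : ∃ n, x.length = n := ⟨_, rfl⟩
    rw [hn'] at hn ⊢
    obtain ⟨H, hH⟩ : ∃ H, h n = H := ⟨_, rfl⟩
    rw [hH] at hn ⊢
    have h3 : (H + 1) * (n + H + 20) + 20 * n + 10 * H + 60 ≤
        (H + 1) * (2 * H + 20) + 30 * H + 60 := by
      have : (H + 1) * (n + H + 20) ≤ (H + 1) * (2 * H + 20) := Nat.mul_le_mul_left _ (by omega)
      omega
    refine h3.trans ?_
    rcases H with _ | _ | H
    · norm_num
    · norm_num
    · have h4 : (H + 1 + 1) ^ 200 = (H + 1 + 1) ^ 198 * ((H + 1 + 1) * (H + 1 + 1)) := by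
        rw [← pow_two, ← pow_add]
      have h5 : 100 ≤ (H + 1 + 1) ^ 198 := by
        calc 100 ≤ 2 ^ 198 := by norm_num
          _ ≤ (H + 1 + 1) ^ 198 := Nat.pow_le_pow_left (by omega) _
      have h6 : 100 * ((H + 1 + 1) * (H + 1 + 1)) ≤
          (H + 1 + 1) ^ 198 * ((H + 1 + 1) * (H + 1 + 1)) := Nat.mul_le_mul_right _ h5
      rw [← h4] at h6
      have h7 : (H + 1 + 1 + 1) * (2 * (H + 1 + 1) + 20) + 30 * (H + 1 + 1) + 60 ≤
          100 * ((H + 1 + 1) * (H + 1 + 1)) := by
        clear h3 h4 h5 h6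
        nlinarith
      exact h7.trans (h6.trans (Nat.le_add_right _ _))
  · have key : ∀ w, AcceptsWith (orcH h R) (verH b) x w ↔
        w = rd R [] x (h x.length) ∧ b = hbH h R x := by
      intro w
      obtain ⟨τ, ⟨s, t, _, h2⟩, h3⟩ := go_verH (G := orcH h R) (markOK_orcH hh R) b x w
      have h4 : AcceptsWith (orcH h R) (verH b) x w ↔ τ 0 ≠ [] := by
        constructor
        · rintro ⟨s', t', τ', h5, h6⟩
          rwa [(h2.det h5).2]
        · exact fun e => ⟨s, t, τ, h2, e⟩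
      rw [h4, h3, orcH_false hh]
      constructor
      · rintro ⟨h5, x', h6⟩
        have h7 : x.length = x'.length := by
          have h8 := congrArg List.length h6
          simp only [List.length_append, length_ansH, List.length_cons, List.length_nil] at h8
          rcases lt_trichotomy x.length x'.length with h9 | h9 | h9
          · have := hh h9; omega
          · exact h9
          · have := hh h9; omega
        obtain ⟨rfl, h8⟩ := List.append_inj h6 h7
        rw [ansH_eq] at h8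
        obtain ⟨h9, h10⟩ := List.append_inj h8 (by rw [length_rd, h5])
        exact ⟨h9, by simpa using h10⟩
      · rintro ⟨rfl, rfl⟩
        exact ⟨length_rd _ _ _ _, x, by rw [ansH_eq]⟩
    constructor
    · intro hx
      refine ⟨rd R [] x (h x.length), (key _).2 ⟨rfl, hx.symm⟩, fun w hw => ((key w).1 hw).1⟩
    · intro hx w hw
      exact hx ((key w).1 hw).2.symm

theorem space_aux (hh : StrictMono h) (R : Oracle) :
    SpaceIn (orcH h R) (fun n => 100 * (h n + 1) ^ 2) {x | hbH h R x = true} := by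
  refine ⟨srcH, fun x => ?_⟩
  obtain ⟨T, τ, ⟨t, _, h1⟩, h2⟩ := go_srcH (G := orcH h R) hh (markOK_orcH hh R) x
  refine ⟨t, τ, h1, ?_⟩
  rw [h2]
  simp only [Set.mem_ofPred_eq, orcH_false hh]
  constructor
  · intro hx
    exact ⟨rd R [] x (h x.length), length_rd _ _ _ _, x, by rw [ansH_eq, hx]⟩
  · rintro ⟨s, hs, x', h6⟩
    have h7 : x.length = x'.length := by
      have h8 := congrArg List.length h6
      simp only [List.length_append, length_ansH, List.length_cons, List.length_nil] at h8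
      rcases lt_trichotomy x.length x'.length with h9 | h9 | h9
      · have := hh h9; omega
      · exact h9
      · have := hh h9; omega
    obtain ⟨rfl, h8⟩ := List.append_inj h6 h7
    rw [ansH_eq] at h8
    obtain ⟨h9, h10⟩ := List.append_inj h8 (by rw [length_rd, hs])
    have := (List.cons.inj h10).1
    exact this.symm

theorem ncard_length (n : ℕ) : {x : List Bool | x.length = n}.ncard = 2 ^ n := by
  have h1 : {x : List Bool | x.length = n} =
      (List.Vector.toList '' (Set.univ : Set (List.Vector Bool n))) := by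
    ext x
    simp only [Set.mem_ofPred_eq, Set.image_univ, Set.mem_range]
    constructor
    · intro hx
      exact ⟨⟨x, hx⟩, rfl⟩
    · rintro ⟨v, rfl⟩
      exact v.2
  rw [h1, Set.ncard_image_of_injective _ List.Vector.toList_injective, Set.ncard_univ,
    Nat.card_eq_fintype_card, card_vector, Fintype.card_bool]

theorem large_pow {k : ℕ} (hk : 9 ≤ k) : 32 * k < 2 ^ k := by
  induction k, hk using Nat.le_induction with
  | base => norm_num
  | succ k hk ih => rw [pow_succ]; omega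

theorem not_exptime (hh' : ∀ c : ℕ, ∃ n₁, ∀ n ≥ n₁, c * n ≤ h n) {A : Oracle}
    {L : Set (List Bool)}
    (hL : ∀ u : Prog, ∃ n₀ : ℕ, ∀ n ≥ n₀, ∀ m ≤ n, ∀ a : List Bool, a.length ≤ 2 ^ m →
      ({x : List Bool | x.length = n ∧ Correct A L u (2 ^ h m) a x}.ncard : ℝ) ≤
        2 ^ n / 2 + 2 * √(n * 2 ^ m * 2 ^ n)) : ¬ EXPTIME A L := by
  rintro ⟨c, u, hu⟩
  obtain ⟨n₁, h1⟩ := hh' (3 * c)
  obtain ⟨n₀, h2⟩ := hL u
  obtain ⟨n, hn⟩ : ∃ n, n = max n₀ (2 * n₁ + 20) := ⟨_, rfl⟩
  have hn0 : n₀ ≤ n := by omega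
  obtain ⟨m, hm⟩ : ∃ m, m = n / 2 := ⟨_, rfl⟩
  have hm1 : n₁ ≤ m := by omega
  have h3 := h2 n hn0 m (by omega) [] (by simp)
  have h4 : {x : List Bool | x.length = n ∧ Correct A L u (2 ^ h m) [] x} =
      {x : List Bool | x.length = n} := by
    ext x
    simp only [Set.mem_ofPred_eq, and_iff_left_iff_imp]
    intro hx
    obtain ⟨s, t, τ, h5, h6, h7⟩ := hu x
    have h8 : init2 x [] = init x := by
      funext r
      unfold init2 init
      split_ifs <;> rfl
    refine ⟨s, t, τ, by rw [h8]; exact h5, h6.trans ?_, h7⟩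
    refine Nat.pow_le_pow_right (by norm_num) ?_
    have h9 := h1 m hm1
    rw [hx]
    have h10 : c * (n + 1) ≤ c * (3 * m) := Nat.mul_le_mul_left _ (by omega)
    calc c * (n + 1) ≤ c * (3 * m) := h10
      _ = 3 * c * m := by ring
      _ ≤ h m := h9
  rw [h4, ncard_length] at h3
  have h5 : ((2 ^ n : ℕ) : ℝ) = 2 ^ n := by push_cast; rfl
  rw [h5] at h3
  obtain ⟨k, hk⟩ : ∃ k, k = n - m := ⟨_, rfl⟩
  have h6 : (2 : ℝ) ^ n / 4 ≤ √(n * 2 ^ m * 2 ^ n) := by linarith
  have h7 : ((2 : ℝ) ^ n / 4) ^ 2 ≤ n * 2 ^ m * 2 ^ n := by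
    calc ((2 : ℝ) ^ n / 4) ^ 2 ≤ √(n * 2 ^ m * 2 ^ n) ^ 2 := by gcongr
      _ = _ := Real.sq_sqrt (by positivity)
  have h8 : (2 : ℝ) ^ n = 2 ^ m * 2 ^ k := by rw [← pow_add]; congr 1; omega
  have h9 : (2 : ℝ) ^ k ≤ 16 * n := by
    have h10 : (0 : ℝ) < 2 ^ m * 2 ^ n := by positivity
    refine le_of_mul_le_mul_right ?_ h10
    calc (2 : ℝ) ^ k * (2 ^ m * 2 ^ n) = 16 * ((2 : ℝ) ^ n / 4) ^ 2 := by rw [h8]; ring
      _ ≤ 16 * (n * 2 ^ m * 2 ^ n) := by linarith
      _ = 16 * n * (2 ^ m * 2 ^ n) := by ring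
  have h10 : 2 ^ k ≤ 16 * n := by exact_mod_cast h9
  have h11 := large_pow (k := k) (by omega)
  omega

theorem result (h : ℕ → ℕ) (hh : StrictMono h) (hsup : ∀ c : ℕ, ∃ n₁, ∀ n ≥ n₁, c * n ≤ h n)
    (hexp : ∃ k : ℕ, ∀ n, h n ≤ 2 ^ (k * (n + 1))) :
    ∃ (A : Oracle) (L : Set (List Bool)), EXPSPACE A L ∧ ¬ EXPTIME A L ∧
    (∀ c ≥ 1, ∀ B : Set (List Bool), SpaceIn A (fun n => 2 ^ (c * (n + 1))) B →
      ∃ k : ℕ, TimeIn A (fun n => 200 * 2 ^ h (c * (n + 1) + k)) B) ∧
    UTime A h L ∧ UTime A h Lᶜ ∧ SpaceIn A (fun n => 100 * (h n + 1) ^ 2) L ∧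
    (∀ u : Prog, ∃ n₀ : ℕ, ∀ n ≥ n₀, ∀ m ≤ n, ∀ a : List Bool, a.length ≤ 2 ^ m →
      ({x : List Bool | x.length = n ∧ Correct A L u (2 ^ h m) a x}.ncard : ℝ) ≤
        2 ^ n / 2 + 2 * √(n * 2 ^ m * 2 ^ n)) := by
  classical
  obtain ⟨R, n₁, hR⟩ := exists_goodH hh
  have hmain : ∀ u : Prog, ∃ n₀ : ℕ, ∀ n ≥ n₀, ∀ m ≤ n, ∀ a : List Bool, a.length ≤ 2 ^ m →
      ({x : List Bool | x.length = n ∧
        Correct (orcH h R) {x | hbH h R x = true} u (2 ^ h m) a x}.ncard : ℝ) ≤
        2 ^ n / 2 + 2 * √(n * 2 ^ m * 2 ^ n) := by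
    intro u
    obtain ⟨j, rfl⟩ := en_surjective u
    refine ⟨max n₁ j, fun n hn m hm a ha => ?_⟩
    have hn1 : n₁ ≤ n := by omega
    have hnj : j ≤ n := by omega
    have hsub : {x : List Bool | x.length = n ∧
        Correct (orcH h R) {x | hbH h R x = true} (en j) (2 ^ h m) a x} ⊆
        ((Finset.univ.filter fun x : List.Vector Bool n =>
          hbH h R x.1 = gs (orcH h R) (en j) (init2 x.1 a) (2 ^ h m)).image List.Vector.toList :
            Finset (List Bool)) := by
      rintro x ⟨hx, s, t, τ, h1, h2, h3⟩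
      rw [Finset.mem_coe, Finset.mem_image]
      refine ⟨⟨x, hx⟩, Finset.mem_filter.2 ⟨Finset.mem_univ _, ?_⟩, rfl⟩
      simp only [Set.mem_ofPred_eq] at h3
      have h4 : gs (orcH h R) (en j) (init2 x a) (2 ^ h m) = decide (τ 0 ≠ []) := by
        unfold gs
        refine decide_eq_decide.2 ⟨?_, fun e => ⟨t, s, τ, h2, h1, e⟩⟩
        rintro ⟨t', s', τ', _, h5, h6⟩
        rwa [(h1.det h5).2]
      simp only
      rw [h4]
      by_cases hb1 : hbH h R x = true
      · rw [hb1, eq_comm, decide_eq_true_eq]; exact h3.1 hb1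
      · rw [Bool.not_eq_true] at hb1
        rw [hb1, eq_comm, decide_eq_false_iff_not]
        intro e
        rw [h3.2 e] at hb1
        exact Bool.noConfusion hb1
    have hle := (Set.ncard_le_ncard hsub (Set.toFinite _)).trans
      ((Set.ncard_coe_finset _).le.trans Finset.card_image_le)
    have h1 := hR n hn1
    have h2 : R ∉ PH h n (en j) m a := by
      intro e
      apply h1
      unfold BH
      simp only [Set.mem_iUnion]
      exact ⟨j, Finset.mem_range.2 (by omega), m, Finset.mem_range.2 (by omega), a,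
        mem_strsLe ha, e⟩
    unfold PH gbH at h2
    simp only [Set.mem_ofPred_eq, not_lt] at h2
    refine le_trans ?_ h2
    exact_mod_cast hle
  refine ⟨orcH h R, {x | hbH h R x = true}, ?_, not_exptime hsup hmain,
    fun c hc B hB => space_time hh hc hB, utime_aux hh R true, ?_, space_aux hh R, hmain⟩
  swap
  · have h1 : {x | hbH h R x = true}ᶜ = {x | hbH h R x = false} := by
      ext x
      simp
    rw [h1]
    exact utime_aux hh R false
  · obtain ⟨k, hk⟩ := hexp
    obtain ⟨u, hu⟩ := space_aux hh R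
    refine ⟨2 * k + 9, u, fun x => ?_⟩
    obtain ⟨t, τ, h3, h4⟩ := hu x
    refine ⟨t, τ, h3.mono ?_, h4⟩
    have h5 := hk x.length
    have h6 : 1 ≤ 2 ^ (k * (x.length + 1)) := Nat.one_le_two_pow
    simp only
    calc 100 * (h x.length + 1) ^ 2 ≤ 128 * (2 * 2 ^ (k * (x.length + 1))) ^ 2 :=
          Nat.mul_le_mul (by norm_num) (Nat.pow_le_pow_left (by omega) 2)
      _ = 2 ^ (9 + 2 * (k * (x.length + 1))) := by
          rw [mul_pow, ← pow_mul, pow_add]
          ring_nf
      _ ≤ 2 ^ ((2 * k + 9) * (x.length + 1)) := by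
          refine Nat.pow_le_pow_right (by norm_num) ?_
          nlinarith

end Pool.Agent.Results.MP_d67941_lc.AnyGap
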