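import Pool.Agent.L0h58.EE.Meas
import Pool.Agent.L0h58.EE.Tight

/-!
# An oracle with `E = ESPACE` and sets in `UP ∩ coUP` that cannot be approximated

There are an oracle `A` and a set `L` such that for every `c ≥ 1` the sets that are decidable in space
`O(2 ^ (c * n))` relative to `A` are exactly those that are decidable in time `O(2 ^ (c * n))` relative
to `A`, although `L` and its complement are in `UP` relative to `A`, and every program that makes at
most `T` steps on the inputs of length `n` and has an advice of length at most `T` decides `L`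
correctly on at most `2 ^ n / 2 + 2 √(n T 2 ^ n)` of the `2 ^ n` inputs of length `n`.
-/

set_option autoImplicit false

namespace Pool.Agent.Results.MP_d67941_lc.AverageHardness

open Pool.Agent.L0h34.OM Pool.Agent.L0h34.RO Pool.Agent.L0h58.EE

/-- Space `O(2 ^ (c * n))` relative to `A`: on the inputs of length `n` the program writes or asks
only strings of length at most `K * 2 ^ (c * n)`; it accepts if register `0` is not empty at the
end. -/
def DSPACE (A : Oracle) (c : ℕ) (L : Set (List Bool)) : Prop :=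
  ∃ (u : Prog) (K : ℕ), ∀ x : List Bool, ∃ (t : ℕ) (τ : Store),
    Run A (K * 2 ^ (c * x.length)) u (init x) t τ ∧ (x ∈ L ↔ τ 0 ≠ [])

/-- Time `O(2 ^ (c * n))` relative to `A`: the program makes at most `K * 2 ^ (c * n)` steps on
the inputs of length `n` for all oracles, and it decides `L` with the oracle `A`. -/
def DTIME (A : Oracle) (c : ℕ) (L : Set (List Bool)) : Prop :=
  ∃ (u : Prog) (K : ℕ), (∀ (R : Oracle) (x : List Bool), ∃ (s t : ℕ) (τ : Store),
      Run R s u (init x) t τ ∧ t ≤ K * 2 ^ (c * x.length)) ∧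
    ∀ x : List Bool, ∃ (s t : ℕ) (τ : Store), Run A s u (init x) t τ ∧ (x ∈ L ↔ τ 0 ≠ [])

/-- The verifier `u` accepts the input `x` with the witness `w`. -/
def AcceptsWith (A : Oracle) (u : Prog) (x w : List Bool) : Prop :=
  ∃ (s t : ℕ) (τ : Store), Run A s u (init2 x w) t τ ∧ τ 0 ≠ []

/-- Unambiguous polynomial time relative to `A`: a verifier that runs in polynomial time for all
witnesses and all oracles accepts the inputs in `L` with exactly one witness, and the other inputs
with no witness. -/
def UP (A : Oracle) (L : Set (List Bool)) : Prop :=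
  ∃ (u : Prog) (c : ℕ), ClockedVerifier u c ∧
    ∀ x, (x ∈ L → ∃! w, AcceptsWith A u x w) ∧ (x ∉ L → ∀ w, ¬ AcceptsWith A u x w)

/-- The program `u`, started with the input `x` in register `0` and the advice `a` in register `1`,
stops after at most `T` steps and decides correctly whether `x` is in `L`. -/
def Correct (A : Oracle) (L : Set (List Bool)) (u : Prog) (T : ℕ) (a x : List Bool) : Prop :=
  ∃ (s t : ℕ) (τ : Store), Run A s u (init2 x a) t τ ∧ t ≤ T ∧ (x ∈ L ↔ τ 0 ≠ [])

theorem time_space {A : Oracle} {c : ℕ} (hc : 1 ≤ c) {L : Set (List Bool)} (h : DTIME A c L) :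
    DSPACE A c L := by
  obtain ⟨u, K, h1, h2⟩ := h
  refine ⟨u, K + 1, fun x => ?_⟩
  obtain ⟨s, t, τ, h3, h4⟩ := h2 x
  obtain ⟨s', t', τ', h5, h6⟩ := h1 A x
  obtain ⟨rfl, rfl⟩ := h3.det h5
  refine ⟨t, τ, ((h3.length_le (init_length x)).2).mono ?_, h4⟩
  have h7 : x.length ≤ c * x.length := Nat.le_mul_of_pos_left _ hc
  have h8 : c * x.length < 2 ^ (c * x.length) := Nat.lt_two_pow_self
  have h9 : (K + 1) * 2 ^ (c * x.length) = K * 2 ^ (c * x.length) + 2 ^ (c * x.length) := by ring
  omega

theorem space_time {R : Oracle} {c : ℕ} (hc : 1 ≤ c) {L : Set (List Bool)}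
    (h : DSPACE (orc R) c L) : DTIME (orc R) c L := by
  obtain ⟨u, K, h1⟩ := h
  obtain ⟨j, rfl⟩ := en_surjective u
  have hpow : ∀ n, 2 ^ (j + K + c * n) = 2 ^ (j + K) * 2 ^ (c * n) := fun n => by rw [pow_add]
  refine ⟨espT j (j + K) c, (2 * j + 2 * c + 2 * (j + K) + 80) * 2 ^ (j + K), fun G x => ?_,
    fun x => ?_⟩
  · obtain ⟨τ, ⟨s, t, ht, h2⟩, _⟩ := go_espT (G := G) j (j + K) hc x
    exact ⟨s, t, τ, h2, ht.trans (by rw [hpow, mul_assoc])⟩
  · obtain ⟨τ, ⟨s, t, _, h2⟩, h3⟩ := go_espT (G := orc R) j (j + K) hc x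
    refine ⟨s, t, τ, h2, ?_⟩
    have h4 : x.length ≤ c * x.length := Nat.le_mul_of_pos_left _ hc
    rw [h3, orc_code R (by omega) (by omega)]
    obtain ⟨t', τ', h5, h6⟩ := h1 x
    rw [h6]
    constructor
    · intro h7
      refine ⟨t', τ', h5.mono ?_, h7⟩
      rw [hpow]
      refine Nat.mul_le_mul_right _ ?_
      calc K ≤ 2 ^ K := (Nat.lt_two_pow_self).le
        _ ≤ 2 ^ (j + K) := Nat.pow_le_pow_right (by norm_num) (by omega)
    · rintro ⟨t'', τ'', h8, h9⟩
      rwa [(h5.det h8).2]

theorem up_aux (R : Oracle) (b : Bool) : UP (orc R) {x | hb R x = b} := by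
  refine ⟨verU b, 100, fun G x w => ?_, fun x => ?_⟩
  · obtain ⟨τ, ⟨s, t, ht, h2⟩, _⟩ := go_verU (G := G) b x w
    refine ⟨s, t, τ, h2, ht.trans ?_⟩
    rcases hn : x.length with _ | _ | n
    · norm_num
    · norm_num
    · have h3 : (n + 1 + 1) ^ 100 = (n + 1 + 1) ^ 99 * (n + 1 + 1) := by rw [← pow_succ]
      have h4 : 40 ≤ (n + 1 + 1) ^ 99 := by
        calc 40 ≤ 2 ^ 99 := by norm_num
          _ ≤ (n + 1 + 1) ^ 99 := Nat.pow_le_pow_left (by omega) _
      have h5 : 40 * (n + 1 + 1) ≤ (n + 1 + 1) ^ 99 * (n + 1 + 1) := Nat.mul_le_mul_right _ h4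
      omega
  · have key : ∀ w, AcceptsWith (orc R) (verU b) x w ↔ w = rd R [] x x.length ∧ b = hb R x := by
      intro w
      obtain ⟨τ, ⟨s, t, _, h2⟩, h3⟩ := go_verU (G := orc R) b x w
      have h4 : AcceptsWith (orc R) (verU b) x w ↔ τ 0 ≠ [] := by
        constructor
        · rintro ⟨s', t', τ', h5, h6⟩
          rwa [(h2.det h5).2]
        · exact fun h => ⟨s, t, τ, h2, h⟩
      rw [h4, h3, orc_false]
      constructor
      · rintro ⟨h5, x', h6⟩
        have h7 : x.length = x'.length := by
          have := congrArg List.length h6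
          simp only [List.length_append, length_ans, List.length_cons, List.length_nil] at this
          omega
        obtain ⟨rfl, h8⟩ := List.append_inj h6 h7
        rw [ans_eq] at h8
        obtain ⟨h9, h10⟩ := List.append_inj h8 (by rw [length_rd, h5])
        exact ⟨h9, by simpa using h10⟩
      · rintro ⟨rfl, rfl⟩
        exact ⟨length_rd _ _ _ _, x, by rw [ans_eq]⟩
    constructor
    · intro hx
      refine ⟨rd R [] x x.length, (key _).2 ⟨rfl, hx.symm⟩, fun w hw => ((key w).1 hw).1⟩
    · intro hx w hw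
      exact hx ((key w).1 hw).2.symm

theorem result : ∃ (A : Oracle) (L : Set (List Bool)),
    (∀ c ≥ 1, ∀ B : Set (List Bool), DSPACE A c B ↔ DTIME A c B) ∧ UP A L ∧ UP A Lᶜ ∧
    ∀ u : Prog, ∃ n₀ : ℕ, ∀ n ≥ n₀, ∀ (T : ℕ) (a : List Bool), a.length ≤ T →
      ({x : List Bool | x.length = n ∧ Correct A L u T a x}.ncard : ℝ) ≤
        2 ^ n / 2 + 2 * √(n * T * 2 ^ n) := by
  classical
  obtain ⟨R, n₁, hR⟩ := exists_good
  refine ⟨orc R, {x | hb R x = true}, fun c hc B => ⟨space_time hc, time_space hc⟩,
    up_aux R true, ?_, fun u => ?_⟩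
  · have h1 : {x | hb R x = true}ᶜ = {x | hb R x = false} := by
      ext x
      simp
    rw [h1]
    exact up_aux R false
  · obtain ⟨j, rfl⟩ := en_surjective u
    refine ⟨max (max n₁ j) 1, fun n hn T a ha => ?_⟩
    have hn1 : n₁ ≤ n := by omega
    have hnj : j ≤ n := by omega
    have hn0 : 1 ≤ n := by omega
    have hsub : {x : List Bool | x.length = n ∧ Correct (orc R) {x | hb R x = true} (en j) T a x} ⊆
        ((Finset.univ.filter fun x : List.Vector Bool n =>
          hb R x.1 = gs (orc R) (en j) (init2 x.1 a) T).image List.Vector.toList :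
            Finset (List Bool)) := by
      rintro x ⟨hx, s, t, τ, h1, h2, h3⟩
      rw [Finset.mem_coe, Finset.mem_image]
      refine ⟨⟨x, hx⟩, Finset.mem_filter.2 ⟨Finset.mem_univ _, ?_⟩, rfl⟩
      simp only [Set.mem_ofPred_eq] at h3
      have h4 : gs (orc R) (en j) (init2 x a) T = decide (τ 0 ≠ []) := by
        unfold gs
        refine decide_eq_decide.2 ⟨?_, fun h => ⟨t, s, τ, h2, h1, h⟩⟩
        rintro ⟨t', s', τ', _, h5, h6⟩
        rwa [(h1.det h5).2]
      simp only
      rw [h4]
      by_cases hb1 : hb R x = true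
      · rw [hb1, eq_comm, decide_eq_true_eq]; exact h3.1 hb1
      · rw [Bool.not_eq_true] at hb1
        rw [hb1, eq_comm, decide_eq_false_iff_not]
        intro h
        rw [h3.2 h] at hb1
        exact Bool.noConfusion hb1
    have hle := (Set.ncard_le_ncard hsub (Set.toFinite _)).trans
      ((Set.ncard_coe_finset _).le.trans Finset.card_image_le)
    rcases Nat.eq_zero_or_pos T with hT0 | hT
    · -- no steps
      have h1 : {x : List Bool | x.length = n ∧
          Correct (orc R) {x | hb R x = true} (en j) T a x} = ∅ := by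
        ext x
        simp only [Set.mem_ofPred_eq, Set.mem_empty_iff_false, iff_false, not_and]
        rintro _ ⟨s, t, τ, h1, h2, _⟩
        have := h1.one_le
        omega
      rw [h1, Set.ncard_empty, Nat.cast_zero]
      positivity
    rcases Nat.lt_or_ge (2 ^ n) T with hT2 | hT2
    · -- many steps
      have h1 : (Finset.univ.filter fun x : List.Vector Bool n =>
          hb R x.1 = gs (orc R) (en j) (init2 x.1 a) T).card ≤ 2 ^ n := by
        refine (Finset.card_le_univ _).trans ?_
        rw [card_vector, Fintype.card_bool]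
      have h2 : ({x : List Bool | x.length = n ∧
          Correct (orc R) {x | hb R x = true} (en j) T a x}.ncard : ℝ) ≤ 2 ^ n := by
        exact_mod_cast hle.trans h1
      have h3 : (2 : ℝ) ^ n ≤ √(n * T * 2 ^ n) := by
        refine Real.le_sqrt_of_sq_le ?_
        have h4 : (2 : ℝ) ^ n ≤ T := by exact_mod_cast hT2.le
        have h5 : (1 : ℝ) ≤ n := by exact_mod_cast hn0
        rw [pow_two]
        gcongr
        nlinarith
      have h6 : (0 : ℝ) ≤ 2 ^ n := by positivity
      linarith
    · have h1 := hR n hn1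
      have h2 : R ∉ Pool.Agent.L0h58.EE.PB n (en j) T a := by
        intro h
        apply h1
        unfold BN
        simp only [Set.mem_iUnion]
        exact ⟨j, Finset.mem_range.2 (by omega), T, Finset.mem_Icc.2 ⟨hT, hT2⟩, a,
          mem_strsLe ha, h⟩
      unfold Pool.Agent.L0h58.EE.PB gb at h2
      simp only [Set.mem_ofPred_eq, not_lt] at h2
      refine le_trans ?_ h2
      exact_mod_cast hle

end Pool.Agent.Results.MP_d67941_lc.AverageHardness
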