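import Pool.Agent.L0h33.SG.Neg
import Pool.Agent.L0h33.SG.Pos3

/-!
# On which input lengths do exponential time and exponential space have to be separated?

Let `S` be any set of natural numbers. If `S` does not contain arbitrarily long stretches `[n, C n]`,
then relative to every oracle it is sufficient to simulate linear exponential space in linear
exponential time on the input lengths not in `S`. If `S` contains arbitrarily long stretches, then there
is an oracle relative to which space `2 ^ (c n)` can be simulated in time `2 ^ ((c + o(1)) n)` on the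
input lengths not in `S`, and yet a set in `UP ∩ coUP` is not in linear exponential time, not even on
average with `2 ^ (n / 2)` bits of advice, for infinitely many lengths in `S`.
-/

set_option autoImplicit false

namespace Pool.Agent.Results.MP_d67941_lc.InputLengths

open Pool.Agent.L0h34.OM Pool.Agent.L0h33.SG

theorem fastOff_of_strong {A : Oracle} {S : Set ℕ}
    (h : ∀ c ≥ 1, ∀ B : Set (List Bool), SpaceIn A (fun n => 2 ^ (c * (n + 1))) B →
        ∃ t : ℕ → ℕ, TimeIn A t B ∧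
          ∀ e ≥ 1, ∃ n₀, ∀ n ≥ n₀, n ∉ S → t n ≤ 2 ^ (c * n + n / e)) : FastOff A S := by
  rintro B ⟨c, u, hu⟩
  obtain ⟨t, h1, h2⟩ := h (c + 1) (by omega) B ⟨u, fun x => by
    obtain ⟨t, τ, h3, h4⟩ := hu x
    exact ⟨t, τ, h3.mono (Nat.pow_le_pow_right (by norm_num) (Nat.mul_le_mul_right _ (by omega))),
      h4⟩⟩
  obtain ⟨n₀, h3⟩ := h2 1 le_rfl
  refine ⟨t, h1, c + 2 + ∑ i ∈ Finset.range n₀, t i, fun n hn => ?_⟩
  obtain ⟨M, hM⟩ : ∃ M, M = ∑ i ∈ Finset.range n₀, t i := ⟨_, rfl⟩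
  rw [← hM]
  by_cases hn0 : n₀ ≤ n
  · refine (h3 n hn0 hn).trans (Nat.pow_le_pow_right (by norm_num) ?_)
    rw [Nat.div_one]
    have e : (c + 2 + M) * (n + 1) = (c + 1) * n + n + (M * (n + 1) + c + 2) := by ring
    omega
  · push Not at hn0
    have h4 : t n ≤ M := by
      rw [hM]
      exact Finset.single_le_sum (f := t) (fun _ _ => Nat.zero_le _) (Finset.mem_range.2 hn0)
    have h5 : M ≤ (c + 2 + M) * (n + 1) := by
      have e : (c + 2 + M) * (n + 1) = M + (M * n + (c + 2) * (n + 1)) := by ring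
      omega
    have h6 : (c + 2 + M) * (n + 1) < 2 ^ ((c + 2 + M) * (n + 1)) := Nat.lt_two_pow_self
    omega

theorem result (S : Set ℕ) :
    (¬ LongStretches S → ∀ A : Oracle, FastOff A S →
      ∀ L : Set (List Bool), EXPSPACE A L → EXPTIME A L) ∧
    (LongStretches S → ∃ (A : Oracle) (L : Set (List Bool)),
      FastOff A S ∧
      (∀ c ≥ 1, ∀ B : Set (List Bool), SpaceIn A (fun n => 2 ^ (c * (n + 1))) B →
        ∃ t : ℕ → ℕ, TimeIn A t B ∧
          ∀ e ≥ 1, ∃ n₀, ∀ n ≥ n₀, n ∉ S → t n ≤ 2 ^ (c * n + n / e)) ∧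
      UP A L ∧ UP A Lᶜ ∧ EXPSPACE A L ∧ ¬ EXPTIME A L ∧
      ∃ N : Set ℕ, N.Infinite ∧ N ⊆ S ∧ ∀ (c : ℕ) (u : Prog), ∃ n₀ : ℕ, ∀ n ∈ N, n₀ ≤ n →
        ∀ a : List Bool, a.length ≤ 2 ^ (n / 2) →
          ({x : List Bool | x.length = n ∧ Correct A L u (2 ^ (c * n)) a x}.ncard : ℝ) ≤
            2 ^ n / 2 + 2 * √(n * 2 ^ (n / 2) * 2 ^ n)) := by
  refine ⟨fun hS A hF L hL => short_case hS hF hL, fun hS => ?_⟩
  obtain ⟨A, L, h1, h2⟩ := long_case hS
  exact ⟨A, L, fastOff_of_strong h1, h1, h2⟩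

end Pool.Agent.Results.MP_d67941_lc.InputLengths
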