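import Pool.Agent.L0h32.ES.Machines

/-!
# One bit of advice, relative to an oracle

There is an oracle `A` relative to which every set in linear exponential space is in linear exponential
time with one bit of advice for each length, although some set in linear exponential space is in
neither deterministic nor nondeterministic time `2 ^ (2 ^ n / (8 n))`.

The oracle consists of blocks. In the block of `n` the sum modulo `2` of `2 ^ (2 ^ n)` values of the
oracle is hard. There are two candidates for the block, and every candidate contains the answers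
to all questions about computations in exponential space relative to either candidate, so that one bit
of advice, which tells the candidate, suffices. A nondeterministic program which finds the parity
in both candidates would give a circuit of depth `O(n)` and size `2 ^ (2 ^ (2 ^ n / (4 n) + O(1)))` for
the parity of `2 ^ (2 ^ n)` bits, because for questions about long inputs the answers can be guessed for
all questions whose length is the square of the length of the shortest one at once.
-/

set_option autoImplicit false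

namespace Pool.Agent.Results.MP_d67941_lc.OneBitOfAdvice

open Pool.Agent.L0h34.OM Pool.Agent.L0h32.ES

theorem mem_iff_acc {A : Oracle} {L : Set (List Bool)} {u : Prog} {c k : ℕ} (hk : c ≤ k)
    (hu : pr k = u) (h : ∀ x : List Bool, ∃ (t : ℕ) (τ : Store),
      Run A (2 ^ (c * (x.length + 1))) u (init x) t τ ∧ (x ∈ L ↔ τ 0 ≠ [])) (x : List Bool) :
    x ∈ L ↔ acc A k x = true := by
  classical
  obtain ⟨t, τ, h1, h2⟩ := h x
  have h3 : Run A (rch k x.length) (pr k) (init x) t τ := by
    rw [hu]
    refine h1.mono ?_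
    unfold rch
    apply Nat.pow_le_pow_right (by norm_num)
    have := Nat.mul_le_mul_right (x.length + 1) hk
    have e : (k + 1) * (x.length + 1) = k * (x.length + 1) + (x.length + 1) := by ring
    omega
  unfold acc
  rw [decide_eq_true_iff, h2]
  constructor
  · intro h4
    exact ⟨t, τ, h3, h4⟩
  · rintro ⟨t', τ', h4, h5⟩
    obtain ⟨_, rfl⟩ := h3.det h4
    exact h5

theorem oneBit {L : Set (List Bool)} (h : ESPACE OA L) : EOneBit OA L := by
  obtain ⟨u, c, h⟩ := h
  obtain ⟨k, hk, hu⟩ := pr_spec u c
  refine ⟨fun m => (stg (stage (rch k m))).κ, {y | OA (code k y) = true},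
    ⟨askProg k, 3 * k + 12, fun y => ?_⟩, fun x => ?_⟩
  · obtain ⟨τ, ⟨s, t, ht, h1⟩, h2⟩ := go_askProg OA k y
    exact ⟨s, t, τ, h1, ht, h2⟩
  · rw [Set.mem_ofPred_eq, code_cons, OA_advice]
    exact mem_iff_acc hk hu h x

/-- The hard set. -/
def hardSet : Set (List Bool) := {x | par OA (2 ^ x.length) [] = true}

theorem espace_hardSet : ESPACE OA hardSet :=
  ⟨parityProg, 2, fun x => by
    obtain ⟨t, τ, h1, h2⟩ := reach_parityProg OA x
    exact ⟨t, τ, h1, h2⟩⟩

theorem fools (u : Prog) (n₀ : ℕ) : ∃ n ≥ n₀, ¬ (List.replicate n true ∈ hardSet ↔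
    NAccepts OA u (2 ^ (2 ^ n / (8 * n))) (List.replicate n true)) := by
  obtain ⟨n, hn, h⟩ := OA_fool u n₀
  refine ⟨n, hn, ?_⟩
  unfold hardSet
  rw [Set.mem_ofPred_eq, List.length_replicate]
  exact h

theorem cube_le {n : ℕ} (hn : 20 ≤ n) : 16 * n ^ 3 ≤ 2 ^ n := by
  induction n, hn using Nat.le_induction with
  | base => norm_num
  | succ n hn ih =>
    rw [pow_succ 2 n]
    have h1 : (n + 1) ^ 3 ≤ 2 * n ^ 3 := by
      have h2 : 20 * n ^ 2 ≤ n * n ^ 2 := Nat.mul_le_mul_right _ hn
      have h3 : 20 * n ≤ n * n := Nat.mul_le_mul_right _ hn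
      have e : (n + 1) ^ 3 = n * n ^ 2 + 3 * n ^ 2 + 3 * n + 1 := by ring
      have e' : 2 * n ^ 3 = n * n ^ 2 + n * n ^ 2 := by ring
      rw [e, e']
      nlinarith
    omega

theorem not_E : ¬ E OA hardSet := by
  rintro ⟨u, c, h⟩
  obtain ⟨n, hn, hne⟩ := fools (.seq (.clear 1) u) (max 20 c)
  apply hne
  obtain ⟨s, t, τ, h1, h2, h3⟩ := h (List.replicate n true)
  rw [h3]
  have hn20 : 20 ≤ n := le_trans (le_max_left _ _) hn
  have hnc : c ≤ n := le_trans (le_max_right _ _) hn
  have hT : 1 + t ≤ 2 ^ (2 ^ n / (8 * n)) := by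
    rw [List.length_replicate] at h2
    have h4 : c * (n + 1) + 1 ≤ 2 ^ n / (8 * n) := by
      rw [Nat.le_div_iff_mul_le (by omega)]
      have := cube_le hn20
      have h5 : c * (n + 1) ≤ n * (n + 1) := Nat.mul_le_mul_right _ hnc
      have h6 : c * (n + 1) + 1 ≤ 2 * n ^ 2 := by nlinarith
      calc (c * (n + 1) + 1) * (8 * n) ≤ (2 * n ^ 2) * (8 * n) := Nat.mul_le_mul_right _ h6
        _ = 16 * n ^ 3 := by ring
        _ ≤ _ := this
    have h7 : 2 ^ (c * (n + 1) + 1) ≤ 2 ^ (2 ^ n / (8 * n)) := Nat.pow_le_pow_right (by norm_num) h4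
    rw [pow_succ] at h7
    have h8 : 1 ≤ 2 ^ (c * (n + 1)) := Nat.one_le_two_pow
    omega
  have hinit : ∀ w : List Bool, Function.update (init2 (List.replicate n true) w) 1 [] =
      init (List.replicate n true) := by
    intro w
    funext r
    by_cases hr : r = 1
    · subst hr; rfl
    · rw [Function.update_of_ne hr]
      unfold init2 init
      by_cases h0 : r = 0
      · rw [if_pos h0, if_pos h0]
      · rw [if_neg h0, if_neg hr, if_neg h0]
  have hclear : ∀ w : List Bool, ∃ t' ≤ 3 * w.length + 1, Run OA s (.clear 1)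
      (init2 (List.replicate n true) w) t' (init (List.replicate n true)) := by
    intro w
    have h4 := Reach.clear (G := OA) (s := s) (init2 (List.replicate n true) w) 1
    rw [hinit] at h4
    exact h4
  constructor
  · intro h4
    obtain ⟨t', ht', h5⟩ := hclear []
    have h6 : t' ≤ 1 := by simpa using ht'
    exact ⟨[], by simp, s, t' + t, τ, .seq h5 h1, by omega, h4⟩
  · rintro ⟨w, _, s', t', τ', h5, _, h6⟩
    obtain ⟨t'', _, h7⟩ := hclear w
    cases h5 with
    | seq h8 h9 =>
      obtain ⟨_, rfl⟩ := h7.det h8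
      obtain ⟨_, rfl⟩ := h1.det h9
      exact h6

/-- Relative to some oracle every set in linear exponential space is in linear exponential time with one
bit of advice, and some set in linear exponential space is in neither `E` nor nondeterministic time
`2 ^ (2 ^ n / (8 n))`. -/
theorem result : ∃ A : Oracle,
    (∀ L : Set (List Bool), ESPACE A L → EOneBit A L) ∧
    ∃ L : Set (List Bool), ESPACE A L ∧ ¬ E A L ∧
      ∀ (u : Prog) (n₀ : ℕ), ∃ n ≥ n₀, ¬ (List.replicate n true ∈ L ↔
        NAccepts A u (2 ^ (2 ^ n / (8 * n))) (List.replicate n true)) :=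
  ⟨OA, fun _ => oneBit, hardSet, espace_hardSet, not_E, fools⟩

end Pool.Agent.Results.MP_d67941_lc.OneBitOfAdvice
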